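import Mathlib
import Pool.Agent.W2helper39.UI.Main

/-!
# A uniform inequality for entire curves given by iterated linear differential equations

Let `X` be a complex projective variety, with arbitrary singularities, which is not uniruled or has a
nonzero pluricanonical form; for instance a variety of general type. For every number `m` there are
a form `A` which does not vanish on `X` and a number `C` such that

`T_f(r) ≤ C (T(a_1, r) + ⋯ + T(a_m, r) + log r)`

for all `r ≥ 1` outside a set of finite measure, for **all** meromorphic functions `a_1, …, a_m` on the
plane and **all** entire curves `f` in `X` which are not contained in `A = 0` and which are given by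
iterated linear differential equations of complexity at most `m` over `a_1, …, a_m`. Here `T_f` is the
characteristic function of Cartan and `T(a, r)` is that of Nevanlinna.

Complexity (`Pool/Agent/W2helper39/UI/Defs.lean`): we start with the functions which are obtained from
the `a_i` and constants by at most `m` sums, products, inverses and derivatives, and we do at most `m`
steps, where in one step all sums and products are formed, and all meromorphic solutions `y` of linear
systems `y' = B y` of size `m` are adjoined whose coefficients have been obtained before. (Smaller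
systems are included: add zeros. So the coefficients of the equations can be solutions of equations
whose coefficients are solutions of equations etc.; for instance `exp (exp (exp z))` has complexity at
most `3` over the constants.) The curve `f` is given by such functions if it has homogeneous coordinates
of this kind: for some function `u`, which is nonzero off a discrete set, all `u f_j` have complexity at
most `m`.

So the exceptional set `A = 0` and the constant `C` depend only on `X` and on the complexity `m`, not on
the coefficients `a_i` and not on the curve. Consequences: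

* small coefficients: if the `a_i` are small functions with respect to `f`, that is
  `T(a_i, r) = o(T_f(r))` and `log r = o(T_f(r))` on a set of infinite measure, then `f` lies in `A = 0`;
* part (3): if the `a_i` are constants, then `f` lies in `A = 0` or is a rational curve of degree at most
  `C`; if the `a_i` are rational functions, then `f` lies in `A = 0` or is a rational curve whose degree
  is at most `C` times the sum of the degrees of the `a_i` plus one.

Part (1) is the same inequality for the rational functions on the images of `X`.

The starting results `MP_2a5ae2_ag.IteratedLinearEquations` (iterated equations, for one Zariski dense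
curve: no uniformity in the curve) and `MP_2a5ae2_ag.UniformNonuniruled` (uniform in the curve, but
only for the linear equation of the linear span of the coordinates, that is with the zeros of the
Wronskian determinant) are special cases. The proof uses the method of the latter: a sequence of
counterexamples is a curve over an ultrapower, where the functions of bounded complexity become
elements of a tower of Picard-Vessiot extensions over a field of small functions.
-/

set_option autoImplicit false

namespace Pool.Agent.Results.MP_8d161d_ag.IteratedEquationsUniform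

open MeasureTheory MvPolynomial ValueDistribution Filter
open Pool.Agent.TH143.GT (FunField Covered Pluricanonical)
open Pool.Agent.W602.GT (IsForm)
open Pool.Agent.W2helper39.UI (Cx)

/-- The characteristic function of the curve with the homogeneous coordinates `f`: the mean of the
logarithm of the maximum norm over the circle of the radius `r`. -/
noncomputable def T {N : ℕ} (f : Fin (N + 1) → ℂ → ℂ) (r : ℝ) : ℝ :=
  Real.circleAverage (fun z => Real.log ‖fun j => f j z‖) 0 r

/-- An entire curve in the projective space of dimension `N`: entire functions without common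
zeros. -/
structure Curve (N : ℕ) where
  f : Fin (N + 1) → ℂ → ℂ
  hol : ∀ j, Differentiable ℂ (f j)
  ne : ∀ z, ∃ j, f j z ≠ 0

variable {N m : ℕ}

/-- The form `F` vanishes along the curve. -/
def Curve.On (c : Curve N) (F : MvPolynomial (Fin (N + 1)) ℂ) : Prop :=
  ∀ z, eval (fun j => c.f j z) F = 0

/-- The `a_i` are meromorphic functions on the plane, and the curve has homogeneous coordinates `u f_j`
of complexity at most `m` over them. -/
def Curve.Given (c : Curve N) (a : Fin m → ℂ → ℂ) : Prop :=
  (∀ i, Meromorphic (a i)) ∧ ∃ u : ℂ → ℂ, (∀ᶠ z in codiscrete ℂ, u z ≠ 0) ∧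
    ∀ j, Cx a m fun z => u z * c.f j z

/-- The inequality with the constant `C`: there is a set `E` of finite measure with
`S(r) ≤ C (T(a_1, r) + ⋯ + T(a_m, r) + log r)` for all `r ≥ 1` outside `E`. -/
def Bound (a : Fin m → ℂ → ℂ) (S : ℝ → ℝ) (C : ℝ) : Prop :=
  ∃ E : Set ℝ, volume E < ⊤ ∧ ∀ r, 1 ≤ r → r ∉ E → S r ≤
    C * (∑ i, characteristic (a i) ⊤ r + Real.log r)

/-- The field `E` is the function field of varieties which are not uniruled, or which have a nonzero
pluricanonical form. -/
def NonUniruled (E : Type) [Field E] [Algebra ℂ E] : Prop :=
  ¬ Covered E ∨ ∃ v : ℕ, 0 < v ∧ Algebra.trdeg ℂ E = v ∧ ∃ n : ℕ, 0 < n ∧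
    ∃ ω : (Fin v → Derivation ℂ E E) → E, Pluricanonical v n ω ∧ ω ≠ 0

/-- The curve in the notation of the proof. -/
theorem Curve.exists_crv {c : Curve N} {a : Fin m → ℂ → ℂ} (h : c.Given a) :
    ∃ c' : W2helper39.UI.Crv N m 1, c'.f = c.f ∧ c'.a = a := by
  obtain ⟨h1, u, h2, h3⟩ := h
  exact ⟨⟨c.f, c.hol, c.ne, a, h1, u, h2, h3, W2helper39.UI.cx_one _⟩, rfl, rfl⟩

theorem Curve.not_on {c : Curve N} {F : MvPolynomial (Fin (N + 1)) ℂ} (h : ¬ c.On F) :
    ∃ z, eval (fun j => c.f j z) F ≠ 0 := by
  unfold Curve.On at h
  push Not at h
  exact h

/-- Let `X` be the projective variety with the ideal `p`, the function field `K`, the generic point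
`y` and the dimension `w`, and let `m` be a number.

(1) Let `E` be a field between the field of the complex numbers and `K`, which is the function field
of varieties that are not uniruled or have a nonzero pluricanonical form, and let `F / F'` be a
rational function in `E`. There are a form `A` which does not belong to `p` and a number `C` such that
`T(F(f) / F'(f), r) ≤ C (T(a_1, r) + ⋯ + T(a_m, r) + log r)`, for all `r ≥ 1` outside a set of finite
measure, for all meromorphic functions `a_1, …, a_m` and all entire curves `f` in `X` with homogeneous
coordinates of complexity at most `m` over them which are not contained in `A = 0`.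

(2) If `X` is not uniruled or has a nonzero pluricanonical form, then the same holds for the
characteristic of `f`.

(3) If the inequality for the characteristic of `f` with the constant `C` holds, and if
`T(a_1, r) + ⋯ + T(a_m, r) ≤ κ log r + κ₀`, then `f` is a rational curve: `f_j = h p_j` with an entire
function `h` without zeros and polynomials `p_j` of degree at most `|C| (κ + 1)`. -/
theorem result {p : Ideal (MvPolynomial (Fin (N + 1)) ℂ)} {K : Type} [Field K] [Algebra ℂ K]
    {w : ℕ} {y : Fin (N + 1) → K} (hy : FunField p 1 K w y) (m : ℕ) :
    (∀ E : IntermediateField ℂ K, NonUniruled E →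
      ∀ (e : ℕ) (F F' : MvPolynomial (Fin (N + 1)) ℂ), F.IsHomogeneous e → F'.IsHomogeneous e →
        W602.GT.val y F' ≠ 0 → W602.GT.val y F / W602.GT.val y F' ∈ E →
          ∃ A : MvPolynomial (Fin (N + 1)) ℂ, IsForm A ∧ A ∉ p ∧ ∃ C : ℝ,
            ∀ (c : Curve N) (a : Fin m → ℂ → ℂ), c.Given a → (∀ F ∈ p, IsForm F → c.On F) →
              ¬ c.On A → Bound a (characteristic
                (fun z => eval (fun j => c.f j z) F / eval (fun j => c.f j z) F') ⊤) C) ∧
    (NonUniruled K → ∃ A : MvPolynomial (Fin (N + 1)) ℂ, IsForm A ∧ A ∉ p ∧ ∃ C : ℝ,
      ∀ (c : Curve N) (a : Fin m → ℂ → ℂ), c.Given a → (∀ F ∈ p, IsForm F → c.On F) →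
        ¬ c.On A → Bound a (T c.f) C) ∧
    ∀ (c : Curve N) (a : Fin m → ℂ → ℂ) (C κ κ₀ : ℝ), c.Given a → Bound a (T c.f) C → 0 ≤ κ →
      (∀ r, 1 ≤ r → ∑ i, characteristic (a i) ⊤ r ≤ κ * Real.log r + κ₀) →
        ∃ (h : ℂ → ℂ) (P : Fin (N + 1) → Polynomial ℂ), Differentiable ℂ h ∧ (∀ z, h z ≠ 0) ∧
          (∀ j z, c.f j z = h z * (P j).eval z) ∧ ∀ j, ((P j).natDegree : ℝ) ≤ |C| * (κ + 1) := by
  refine ⟨?_, ?_, ?_⟩
  · intro E hE e F F' hF hF' hn hmem
    obtain ⟨A, hA, hAp, C, hC⟩ := W2helper39.UI.cov_main m hy E (by
      rintro ⟨h1, h2⟩
      rcases hE with h | ⟨v, hv, hv2, n, hn, ω, hω, hω0⟩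
      · exact h h1
      · exact hω0 (h2 v hv hv2 n hn ω hω)) hF hF' hn hmem
    refine ⟨A, hA, hAp, C, fun c a hg hI hcA => ?_⟩
    obtain ⟨c', h1, h2⟩ := Curve.exists_crv hg
    have h3 := hC c' (by rw [h1]; exact hI) (by rw [h1]; exact Curve.not_on hcA)
    unfold W2helper39.UI.Crv.Bd at h3
    rw [h1, h2] at h3
    exact h3
  · intro hK
    obtain ⟨A, hA, hAp, C, hC⟩ := W2helper39.UI.kod_main m hy (by
      rintro ⟨h1, h2⟩
      rcases hK with h | ⟨v, hv, hv2, n, hn, ω, hω, hω0⟩
      · exact h h1
      · have h3 : v = w := by
          have := hy.sub.dim
          rw [hv2] at this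
          exact_mod_cast this
        subst h3
        exact hω0 (h2 n hn ω hω))
    refine ⟨A, hA, hAp, C, fun c a hg hI hcA => ?_⟩
    obtain ⟨c', h1, h2⟩ := Curve.exists_crv hg
    have h3 := hC c' (by rw [h1]; exact hI) (by rw [h1]; exact Curve.not_on hcA)
    unfold W2helper39.UI.Crv.Bd at h3
    rw [h1, h2] at h3
    exact h3
  · intro c a C κ κ₀ hg hB hκ ha
    obtain ⟨c', h1, h2⟩ := Curve.exists_crv hg
    have h3 : c'.Bd (N131.SR.Tf c'.f) C := by
      unfold W2helper39.UI.Crv.Bd
      rw [h1, h2]
      exact hB
    have h4 := W2helper39.UI.rat_main h3 hκ (by rw [h2]; exact ha)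
    rw [h1] at h4
    exact h4

end Pool.Agent.Results.MP_8d161d_ag.IteratedEquationsUniform
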