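import Mathlib
import Pool.Agent.W2helper39.GF.Main

/-!
# MP_8d161d_ag: entire curves of bounded complexity in families of varieties of general type

The coordinates are the parameters `s` and the projective coordinates `x`; `G`, `Q` are polynomials in
`s` and `x` with complex coefficients, and `{F = 0, R ≠ 0}` is a locally closed set in the space of the
parameters, the base. For all points `s` of the base we assume that `G (s, ·) = 0` is a smooth
irreducible projective variety `X_s` of dimension `N`, that the zero set `D_s` of the form `Q (s, ·)` on
`X_s` is a divisor with strict normal crossings (or empty, for instance if `Q = 1`), and that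
`X_s - D_s` is nonempty and of log general type (of general type if `D_s` is empty). This is
`GeneralTypePair`.

`UniformEntire`: for every `m` there is a finite list of polynomials `H i`, forms in `x`, such that

(1) for every point `s` of the base there is an `i` such that `H i (s, ·)` does not vanish on all of
`X_s - D_s`, and all nonconstant entire curves in `X_s - D_s`, whose projective coordinates are sums of
`m` entire functions each of which is zero or has no zeros (`IsEntire`), lie in `H i (s, ·) = 0`;

(2) for all entire functions `s` with values in the base, outside a discrete set, there is an `i` such
that `H i (s z, ·)` does not vanish on all of `X_{s z} - D_{s z}` for all `z` outside a discrete set,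
and for all entire curves `f`, with `f z` in `X_{s z}`, whose projective coordinates are sums of `m`
terms `a u`, `a` and `u` entire, `u` without zeros, and with `Q (s, f) = q v` not identically zero, `q`
and `v` entire, `v` without zeros (`IsCurve`), either `H i (s, f) = 0` or the characteristic functions
of the ratios of the coordinates of `f` are bounded, linearly, by those of `s`, `a` and `q` and the
logarithm, outside a set of radii of finite measure (`CharBound`).
-/

set_option autoImplicit false

namespace Pool.Agent.Results.MP_8d161d_ag.UniformFamilies

open MvPolynomial
open Pool.Agent.W2helper39.FB (OnBase GeneralTypePair fib)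
open Pool.Agent.W2helper39.GF

/-- Let all fibres `X_s - D_s` over the points `s` of the base `{F = 0, R ≠ 0}` be of log general type,
`X_s = {G (s, ·) = 0}` smooth projective, `D_s = {Q (s, ·) = 0}` with strict normal crossings or empty.
For every `m` the entire curves of complexity `m` in the fibres, with constant or moving parameters, lie
in exceptional hypersurface sections `H i (s, ·) = 0` for a finite list of `H i`, or satisfy a linear
bound for the characteristic. -/
theorem result (m f r N c g : ℕ) (G : Fin g → MvPolynomial (Fin r ⊕ Fin (N + 1 + c)) ℂ)
    (Q : MvPolynomial (Fin r ⊕ Fin (N + 1 + c)) ℂ) (F : Fin f → MvPolynomial (Fin r) ℂ)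
    (R : MvPolynomial (Fin r) ℂ)
    (h : ∀ s : Fin r → ℂ, OnBase F R s → GeneralTypePair N (fun j => fib s (G j)) (fib s Q)) :
    UniformEntire m G Q F R :=
  uniform_entire m G Q F R h

end Pool.Agent.Results.MP_8d161d_ag.UniformFamilies
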